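import Mathlib

/-!
# Under CH a dominating set of functions on which every sequence of open sets can be split
-/

set_option autoImplicit false
set_option linter.unusedVariables false


namespace Pool.Agent.Helper161.Dlr

open Set

/-- The initial segment of length `m` of `y`. -/
def pre (y : ℕ → ℕ) (m : ℕ) : List ℕ := (List.range m).map y

/-- The basic open sets of the dominating topology on the strictly increasing sequences: those `y`
which agree with `s` below `m` and are above `f` from `m` on. -/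
def Box (s : ℕ → ℕ) (m : ℕ) (f : ℕ → ℕ) : Set (ℕ → ℕ) :=
  {y | StrictMono y ∧ (∀ i < m, y i = s i) ∧ ∀ i, m ≤ i → f i ≤ y i}

/-- `y` lies in the open set coded by `Φ n`. -/
def Dn (Φ : ℕ → Set (List ℕ)) (n : ℕ) (y : ℕ → ℕ) : Prop := ∃ m, pre y m ∈ Φ n

/-- The numbers `n` such that the `n`-th open set meets every basic open set with the stem `s`. -/
def Fav (Φ : ℕ → Set (List ℕ)) (s : ℕ → ℕ) (m : ℕ) : Set ℕ :=
  {n | ∀ h : ℕ → ℕ, ∃ y ∈ Box s m h, Dn Φ n y}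

/-- There are arbitrarily high extensions `t` of a fixed length of the stem `u` which favour
some number above `k`. -/
def Good (Φ : ℕ → Set (List ℕ)) (k : ℕ) (u : ℕ → ℕ) (m : ℕ) : Prop :=
  ∃ m' > m, ∀ i, ∃ t : ℕ → ℕ, StrictMono t ∧ (∀ j < m, t j = u j) ∧ i ≤ t m ∧
    ∃ n ≥ k, n ∈ Fav Φ t m'

theorem pre_eq_iff {y z : ℕ → ℕ} {m : ℕ} : pre y m = pre z m ↔ ∀ i < m, y i = z i := by
  unfold pre
  rw [List.map_inj_left]
  simp only [List.mem_range]

theorem length_pre (y : ℕ → ℕ) (m : ℕ) : (pre y m).length = m := by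
  simp [pre]

theorem box_nonempty {s : ℕ → ℕ} (hs : StrictMono s) (m : ℕ) (f : ℕ → ℕ) : (Box s m f).Nonempty := by
  have hg : Monotone (fun i : ℕ => if i < m then 0 else ∑ j ∈ Finset.range (i + 1), f j) := by
    intro i j hij
    simp only
    split_ifs with h1 h2 h2
    · exact le_rfl
    · exact Nat.zero_le _
    · omega
    · exact Finset.sum_le_sum_of_subset (Finset.range_mono (by omega))
  refine ⟨fun i => s i + if i < m then 0 else ∑ j ∈ Finset.range (i + 1), f j, ?_, ?_, ?_⟩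
  · exact hs.add_monotone hg
  · intro i hi
    simp [hi]
  · intro i hi
    have h1 : ¬ i < m := by omega
    simp only [h1, if_false]
    have h2 : f i ≤ ∑ j ∈ Finset.range (i + 1), f j :=
      Finset.single_le_sum (f := f) (fun _ _ => Nat.zero_le _) (Finset.mem_range.2 (by omega))
    omega

theorem box_subset {s y : ℕ → ℕ} {m m' : ℕ} {f f' : ℕ → ℕ} (hy : y ∈ Box s m f) (hm : m ≤ m')
    (hf : f ≤ f') : Box y m' f' ⊆ Box s m f := by
  rintro z ⟨hz1, hz2, hz3⟩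
  obtain ⟨hy1, hy2, hy3⟩ := hy
  refine ⟨hz1, fun i hi => ?_, fun i hi => ?_⟩
  · rw [hz2 i (by omega), hy2 i hi]
  · by_cases h : i < m'
    · rw [hz2 i h]
      exact hy3 i hi
    · exact (hf i).trans (hz3 i (by omega))

theorem box_congr {s t : ℕ → ℕ} {m : ℕ} (h : ∀ i < m, s i = t i) (f : ℕ → ℕ) :
    Box s m f = Box t m f := by
  ext y
  constructor
  · rintro ⟨h1, h2, h3⟩
    exact ⟨h1, fun i hi => by rw [h2 i hi, h i hi], h3⟩
  · rintro ⟨h1, h2, h3⟩
    exact ⟨h1, fun i hi => by rw [h2 i hi, h i hi], h3⟩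

theorem fav_congr {Φ : ℕ → Set (List ℕ)} {s t : ℕ → ℕ} {m : ℕ} (h : ∀ i < m, s i = t i) :
    Fav Φ s m = Fav Φ t m := by
  unfold Fav
  simp only [box_congr h]

theorem good_congr {Φ : ℕ → Set (List ℕ)} {k : ℕ} {s t : ℕ → ℕ} {m : ℕ} (h : ∀ i < m, s i = t i) :
    Good Φ k s m ↔ Good Φ k t m := by
  have key : ∀ s t : ℕ → ℕ, (∀ i < m, s i = t i) → Good Φ k s m → Good Φ k t m := by
    rintro s t h ⟨m', hm', hh⟩
    refine ⟨m', hm', fun i => ?_⟩
    obtain ⟨u, hu1, hu2, hu3, hu4⟩ := hh i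
    exact ⟨u, hu1, fun j hj => by rw [hu2 j hj, h j hj], hu3, hu4⟩
  exact ⟨key s t h, key t s (fun i hi => (h i hi).symm)⟩

/-- auxiliary: the local statement -/
def forward_P (B : (ℕ → ℕ) → ℕ → Prop) (s : ℕ → ℕ) (m : ℕ) (M : ℕ) (h : ℕ → ℕ) : Prop :=
  ∀ m'', m ≤ m'' → m'' ≤ M → ∀ y : ℕ → ℕ, StrictMono y → (∀ i < m, y i = s i) →
    (∀ i, m ≤ i → i < m'' → h i ≤ y i) → B y m''

theorem forward_step (B : (ℕ → ℕ) → ℕ → Prop)
    (s : ℕ → ℕ) (m : ℕ) (f : ℕ → ℕ)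
    (hG : ∀ (u : ℕ → ℕ) (j : ℕ), StrictMono u → m ≤ j → (∀ i < m, u i = s i) →
      (∀ i, m ≤ i → i < j → f i ≤ u i) → B u j →
      ¬ ∃ m' > j, ∀ i, ∃ t : ℕ → ℕ, StrictMono t ∧ (∀ a < j, t a = u a) ∧ i ≤ t j ∧ ¬ B t m')
    (M : ℕ) (hM : m ≤ M) (h : ℕ → ℕ) (hf : f ≤ h) (hP : forward_P B s m M h) :
    ∃ b : ℕ, ∀ y : ℕ → ℕ, StrictMono y → (∀ i < m, y i = s i) →
      (∀ i, m ≤ i → i < M → h i ≤ y i) → b ≤ y M → B y (M + 1) := by
  by_contra hcon
  push Not at hcon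
  choose Y hY1 hY2 hY3 hY4 hY5 using hcon
  have hkey : ∀ j, m ≤ j → j ≤ M → ∀ u : ℕ → ℕ, {b | ∀ i < j, Y b i = u i}.Infinite →
      ∃ v, ∀ b, (∀ i < j, Y b i = u i) → Y b j < v := by
    intro j hj1 hj2 u hinf
    obtain ⟨b0, hb0⟩ := hinf.nonempty
    have hB0 : B (Y b0) j := hP j hj1 hj2 (Y b0) (hY1 b0) (hY2 b0)
      (fun i hi1 hi2 => hY3 b0 i hi1 (by omega))
    have h1 := hG (Y b0) j (hY1 b0) hj1 (hY2 b0)
      (fun i hi1 hi2 => le_trans (hf i) (hY3 b0 i hi1 (by omega))) hB0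
    push Not at h1
    obtain ⟨v, hv⟩ := h1 (M + 1) (by omega)
    refine ⟨v, fun b hb => ?_⟩
    by_contra hlt
    push Not at hlt
    exact hY5 b (hv (Y b) (hY1 b) (fun a ha => by rw [hb a ha, hb0 a ha]) hlt)
  have hQ : ∀ n, m + n ≤ M → ∃ u : ℕ → ℕ, {b | ∀ i < m + n, Y b i = u i}.Infinite := by
    intro n
    induction n with
    | zero =>
      intro _
      refine ⟨s, ?_⟩
      have : {b | ∀ i < m + 0, Y b i = s i} = Set.univ := by
        ext b
        simp only [Set.mem_setOf_eq, Set.mem_univ, iff_true]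
        exact fun i hi => hY2 b i hi
      rw [this]
      exact Set.infinite_univ
    | succ n ih =>
      intro hn
      obtain ⟨u, hu⟩ := ih (by omega)
      obtain ⟨v, hv⟩ := hkey (m + n) (by omega) (by omega) u hu
      by_contra hno
      push Not at hno
      apply hu
      have hsub : {b | ∀ i < m + n, Y b i = u i} ⊆
          ⋃ w ∈ Set.Iio v, {b | ∀ i < m + (n + 1), Y b i = Function.update u (m + n) w i} := by
        intro b hb
        simp only [Set.mem_iUnion, Set.mem_Iio, Set.mem_setOf_eq]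
        refine ⟨Y b (m + n), hv b hb, ?_⟩
        intro i hi
        by_cases h1 : i = m + n
        · subst h1
          rw [Function.update_self]
        · rw [Function.update_of_ne h1]
          exact hb i (by omega)
      refine ((Set.finite_Iio v).biUnion ?_).subset hsub
      intro w _
      exact hno (Function.update u (m + n) w)
  obtain ⟨u, hu⟩ := hQ (M - m) (by omega)
  have hMm : m + (M - m) = M := by omega
  rw [hMm] at hu
  obtain ⟨v, hv⟩ := hkey M hM le_rfl u hu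
  apply hu
  apply (Set.finite_Iio v).subset
  intro b hb
  exact lt_of_le_of_lt (hY4 b) (hv b hb)


theorem forward (B : (ℕ → ℕ) → ℕ → Prop)
    (hloc : ∀ s t : ℕ → ℕ, ∀ m, (∀ i < m, s i = t i) → (B s m ↔ B t m))
    (s : ℕ → ℕ) (m : ℕ) (f : ℕ → ℕ) (hs : StrictMono s) (hB : B s m)
    (hG : ∀ (u : ℕ → ℕ) (j : ℕ), StrictMono u → m ≤ j → (∀ i < m, u i = s i) →
      (∀ i, m ≤ i → i < j → f i ≤ u i) → B u j →
      ¬ ∃ m' > j, ∀ i, ∃ t : ℕ → ℕ, StrictMono t ∧ (∀ a < j, t a = u a) ∧ i ≤ t j ∧ ¬ B t m') :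
    ∃ h : ℕ → ℕ, f ≤ h ∧ ∀ y ∈ Box s m h, ∀ j, m ≤ j → B y j := by
  have hstep : ∀ (n : ℕ) (h : ℕ → ℕ), (f ≤ h ∧ forward_P B s m (m + n) h) →
      ∃ h' : ℕ → ℕ, (f ≤ h' ∧ forward_P B s m (m + (n + 1)) h') ∧ ∀ i, i ≠ m + n → h' i = h i := by
    rintro n h ⟨hf, hP⟩
    obtain ⟨b, hb⟩ := forward_step B s m f hG (m + n) (by omega) h hf hP
    refine ⟨Function.update h (m + n) (max (h (m + n)) b), ⟨?_, ?_⟩, ?_⟩
    · intro i
      by_cases hi : i = m + n
      · subst hi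
        rw [Function.update_self]
        exact le_trans (hf _) (le_max_left _ _)
      · rw [Function.update_of_ne hi]
        exact hf i
    · intro m'' h1 h2 y hy1 hy2 hy3
      by_cases hm : m'' ≤ m + n
      · apply hP m'' h1 hm y hy1 hy2
        intro i hi1 hi2
        have := hy3 i hi1 hi2
        rwa [Function.update_of_ne (by omega)] at this
      · have hm' : m'' = m + n + 1 := by omega
        subst hm'
        apply hb y hy1 hy2
        · intro i hi1 hi2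
          have := hy3 i hi1 (by omega)
          rwa [Function.update_of_ne (by omega)] at this
        · have := hy3 (m + n) (by omega) (by omega)
          rw [Function.update_self] at this
          exact le_trans (le_max_right _ _) this
    · intro i hi
      rw [Function.update_of_ne hi]
  choose! g hg using hstep
  let H : ℕ → ℕ → ℕ := fun n => Nat.rec f (fun n h => g n h) n
  have hH0 : H 0 = f := rfl
  have hHs : ∀ n, H (n + 1) = g n (H n) := fun n => rfl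
  have hHP : ∀ n, f ≤ H n ∧ forward_P B s m (m + n) (H n) := by
    intro n
    induction n with
    | zero =>
      refine ⟨le_refl _, ?_⟩
      intro m'' h1 h2 y hy1 hy2 hy3
      have : m'' = m := by omega
      subst this
      exact (hloc y s m'' hy2).2 hB
    | succ n ih =>
      rw [hHs]
      exact (hg n (H n) ih).1
  have hHst : ∀ n i, i ≠ m + n → H (n + 1) i = H n i := by
    intro n i hi
    rw [hHs]
    exact (hg n (H n) (hHP n)).2 i hi
  have hHst' : ∀ n k i, i < m + n → H (n + k) i = H n i := by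
    intro n k i hi
    induction k with
    | zero => rfl
    | succ k ih =>
      rw [← add_assoc, hHst (n + k) i (by omega), ih]
  refine ⟨fun i => H (i + 1) i, fun i => (hHP (i + 1)).1 i, ?_⟩
  intro y hy j hj
  obtain ⟨hy1, hy2, hy3⟩ := hy
  have hjm : m + (j - m) = j := by omega
  have h1 := (hHP (j - m)).2 j hj (by omega) y hy1 hy2
  apply h1
  intro i hi1 hi2
  have h2 := hy3 i hi1
  have h3 : H (j - m) i = H (i + 1) i := by
    rcases le_total (j - m) (i + 1) with h | h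
    · obtain ⟨k, hk⟩ := Nat.exists_eq_add_of_le h
      rw [hk, hHst' _ _ _ (by omega)]
    · obtain ⟨k, hk⟩ := Nat.exists_eq_add_of_le h
      rw [hk, hHst' _ _ _ (by omega)]
  rw [h3]
  exact h2


theorem goodset {Φ : ℕ → Set (List ℕ)} {k : ℕ} {u : ℕ → ℕ} {m : ℕ}
    (hb : ∀ n ∈ Fav Φ u m, n < k) (hg : Good Φ k u m) :
    ∃ C : Set ℕ, C.Infinite ∧ ∀ X : Set ℕ, (C ∩ X).Infinite → ∀ f : ℕ → ℕ,
      ∃ n ≥ k, n ∈ X ∧ ∃ y ∈ Box u m f, Dn Φ n y := by
  classical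
  obtain ⟨m', hm', hg⟩ := hg
  choose t ht1 ht2 ht3 n hn1 hn2 using hg
  -- key claim
  have key : ∀ (i : ℕ) (h : ℕ → ℕ), (∀ a, m ≤ a → a < m' → h a ≤ i) →
      ∃ y ∈ Box u m h, Dn Φ (n i) y := by
    intro i h hi
    obtain ⟨y, ⟨hy1, hy2, hy3⟩, hyD⟩ := hn2 i h
    refine ⟨y, ⟨hy1, fun a ha => ?_, fun a ha => ?_⟩, hyD⟩
    · rw [hy2 a (ha.trans hm'), ht2 i a ha]
    · rcases lt_or_ge a m' with h1 | h1
      · rw [hy2 a h1]
        exact (hi a ha h1).trans ((ht3 i).trans ((ht1 i).monotone ha))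
      · exact hy3 a h1
  have bd : ∀ h : ℕ → ℕ, ∃ b : ℕ, ∀ a, a < m' → h a ≤ b := by
    intro h
    exact ⟨(Finset.range m').sup h, fun a ha => Finset.le_sup (f := h) (Finset.mem_range.2 ha)⟩
  refine ⟨Set.range n, ?_, ?_⟩
  · intro hfin
    obtain ⟨v, hv⟩ : ∃ v, (n ⁻¹' {v}).Infinite := by
      by_contra hcon
      push Not at hcon
      have h1 : (⋃ v ∈ Set.range n, n ⁻¹' {v}).Finite := hfin.biUnion fun v _ => hcon v
      have h2 : (⋃ v ∈ Set.range n, n ⁻¹' {v}) = Set.univ := by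
        ext i
        simp
      rw [h2] at h1
      exact Set.infinite_univ h1
    have hvF : v ∈ Fav Φ u m := by
      intro h
      obtain ⟨b, hb'⟩ := bd h
      obtain ⟨i, hi, hbi⟩ := hv.exists_gt b
      obtain ⟨y, hy, hyD⟩ := key i h fun a _ ha => (hb' a ha).trans hbi.le
      have : n i = v := hi
      rw [this] at hyD
      exact ⟨y, hy, hyD⟩
    obtain ⟨i, hi⟩ := hv.nonempty
    have h1 : n i = v := hi
    have h2 := hb v hvF
    have h3 := hn1 i
    omega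
  · intro X hX f
    obtain ⟨b, hb'⟩ := bd f
    have hinf : {i | n i ∈ X}.Infinite := by
      intro hfin
      apply hX
      refine (hfin.image n).subset ?_
      rintro _ ⟨⟨i, rfl⟩, hi⟩
      exact ⟨i, hi, rfl⟩
    obtain ⟨i, hi, hbi⟩ := hinf.exists_gt b
    obtain ⟨y, hy, hyD⟩ := key i f fun a _ ha => (hb' a ha).trans hbi.le
    exact ⟨n i, hn1 i, hi, y, hy, hyD⟩

open Classical in
/-- the countable family, indexed by lists and pairs of a list and a number -/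
noncomputable def fam352 (Φ : ℕ → Set (List ℕ)) : List ℕ ⊕ (List ℕ × ℕ) → Set ℕ
  | Sum.inl l => if h : ∃ C : Set ℕ, C.Infinite ∧ ∃ s m, pre s m = l ∧ C = Fav Φ s m then h.choose
      else Set.univ
  | Sum.inr (l, k) => if h : ∃ C : Set ℕ, C.Infinite ∧ ∀ u m, pre u m = l → ∀ X : Set ℕ,
      (C ∩ X).Infinite → ∀ f : ℕ → ℕ, ∃ n ≥ k, n ∈ X ∧ ∃ y ∈ Box u m f, Dn Φ n y then h.choose
      else Set.univ

theorem fam352_inf (Φ : ℕ → Set (List ℕ)) (a : List ℕ ⊕ (List ℕ × ℕ)) :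
    (fam352 Φ a).Infinite := by
  rcases a with l | ⟨l, k⟩
  · simp only [fam352]
    split_ifs with h
    · exact h.choose_spec.1
    · exact Set.infinite_univ
  · simp only [fam352]
    split_ifs with h
    · exact h.choose_spec.1
    · exact Set.infinite_univ

theorem pre_eq352 {s t : ℕ → ℕ} {m m' : ℕ} (h : pre s m = pre t m') :
    m = m' ∧ ∀ i < m, s i = t i := by
  have h1 : m = m' := by
    rw [← length_pre s m, h, length_pre]
  subst h1
  exact ⟨rfl, pre_eq_iff.1 h⟩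

theorem fam352_fav (Φ : ℕ → Set (List ℕ)) (s : ℕ → ℕ) (m : ℕ) (h : (Fav Φ s m).Infinite) :
    fam352 Φ (Sum.inl (pre s m)) = Fav Φ s m := by
  have hex : ∃ C : Set ℕ, C.Infinite ∧ ∃ t m', pre t m' = pre s m ∧ C = Fav Φ t m' :=
    ⟨Fav Φ s m, h, s, m, rfl, rfl⟩
  have h1 : fam352 Φ (Sum.inl (pre s m)) = hex.choose := by
    simp only [fam352]
    rw [dif_pos hex]
  obtain ⟨-, t, m', h2, h3⟩ := hex.choose_spec
  rw [h1, h3]
  obtain ⟨h4, h5⟩ := pre_eq352 h2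
  subst h4
  exact fav_congr h5

theorem box_congr352 {s t : ℕ → ℕ} {m : ℕ} (h : ∀ i < m, s i = t i) (f : ℕ → ℕ) :
    Box s m f = Box t m f := by
  ext y
  constructor
  · rintro ⟨h1, h2, h3⟩
    exact ⟨h1, fun i hi => (h2 i hi).trans (h i hi), h3⟩
  · rintro ⟨h1, h2, h3⟩
    exact ⟨h1, fun i hi => (h2 i hi).trans (h i hi).symm, h3⟩

theorem fam352_good (Φ : ℕ → Set (List ℕ)) (k : ℕ) (u : ℕ → ℕ) (m : ℕ)
    (hb : ∀ n ∈ Fav Φ u m, n < k) (hg : Good Φ k u m) (X : Set ℕ)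
    (hX : (fam352 Φ (Sum.inr (pre u m, k)) ∩ X).Infinite) (f : ℕ → ℕ) :
    ∃ n ≥ k, n ∈ X ∧ ∃ y ∈ Box u m f, Dn Φ n y := by
  have hex : ∃ C : Set ℕ, C.Infinite ∧ ∀ u' m', pre u' m' = pre u m → ∀ X : Set ℕ,
      (C ∩ X).Infinite → ∀ f : ℕ → ℕ, ∃ n ≥ k, n ∈ X ∧ ∃ y ∈ Box u' m' f, Dn Φ n y := by
    obtain ⟨C, hC, hC2⟩ := goodset hb hg
    refine ⟨C, hC, fun u' m' h X2 hX2 f2 => ?_⟩
    obtain ⟨h4, h5⟩ := pre_eq352 h
    subst h4
    rw [box_congr352 h5]
    exact hC2 X2 hX2 f2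
  have h1 : fam352 Φ (Sum.inr (pre u m, k)) = hex.choose := by
    simp only [fam352]
    rw [dif_pos hex]
  rw [h1] at hX
  exact hex.choose_spec.2 u m rfl X hX f


theorem exists_family (Φ : ℕ → Set (List ℕ)) :
    ∃ 𝒞 : ℕ → Set ℕ, (∀ j, (𝒞 j).Infinite) ∧ ∀ X : Set ℕ, (∀ j, (𝒞 j ∩ X).Infinite) →
      ∀ (s : ℕ → ℕ) (m : ℕ) (f : ℕ → ℕ) (k : ℕ), StrictMono s →
        (∃ y ∈ Box s m f, ∃ m' ≥ m, ∃ f' ≥ f, ∃ k', ∀ z ∈ Box y m' f', ∀ n ≥ k', ¬ Dn Φ n z) ∨
        ∃ y ∈ Box s m f, ∃ n ≥ k, n ∈ X ∧ Dn Φ n y := by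
  obtain ⟨e, he⟩ := exists_surjective_nat (List ℕ ⊕ (List ℕ × ℕ))
  refine ⟨fun j => fam352 Φ (e j), fun j => fam352_inf Φ _, fun X hX s m f k hs => ?_⟩
  have hX' : ∀ a, (fam352 Φ a ∩ X).Infinite := by
    intro a
    obtain ⟨j, rfl⟩ := he a
    exact hX j
  by_cases h1 : ∃ y ∈ Box s m f, ∃ m' ≥ m, ∃ f' ≥ f, ∃ k', ∀ z ∈ Box y m' f', ∀ n ≥ k', ¬ Dn Φ n z
  · exact Or.inl h1
  right
  have hfail : ∀ y ∈ Box s m f, ∀ m' ≥ m, ∀ f' ≥ f, ∀ k', ∃ z ∈ Box y m' f', ∃ n ≥ k', Dn Φ n z := by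
    intro y hy m' hm' f' hf' k'
    by_contra hcon
    apply h1
    refine ⟨y, hy, m', hm', f', hf', k', fun z hz n hn hD => ?_⟩
    exact hcon ⟨z, hz, n, hn, hD⟩
  by_cases h2 : ∃ y ∈ Box s m f, ∃ m' ≥ m, (Fav Φ y m').Infinite
  · obtain ⟨y, hy, m', hm', hinf⟩ := h2
    have h3 := hX' (Sum.inl (pre y m'))
    rw [fam352_fav Φ y m' hinf] at h3
    obtain ⟨n, hn, hkn⟩ := h3.exists_gt k
    obtain ⟨z, hz, hD⟩ := hn.1 f
    exact ⟨z, box_subset hy hm' (le_refl f) hz, n, hkn.le, hn.2, hD⟩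
  obtain ⟨y0, hy0⟩ := box_nonempty hs m f
  have hfin : (Fav Φ s m).Finite := by
    by_contra hcon
    apply h2
    refine ⟨y0, hy0, m, le_refl m, ?_⟩
    rw [fav_congr (Φ := Φ) (s := y0) (t := s) (m := m) hy0.2.1]
    exact hcon
  obtain ⟨b, hb⟩ := hfin.bddAbove
  set k' := max k (b + 1) with hk'
  have hbk : ∀ n ∈ Fav Φ s m, n < k' := fun n hn =>
    lt_of_lt_of_le (Nat.lt_succ_of_le (hb hn)) (le_max_right _ _)
  by_cases h3 : ∃ (u : ℕ → ℕ) (j : ℕ), StrictMono u ∧ m ≤ j ∧ (∀ i < m, u i = s i) ∧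
      (∀ i, m ≤ i → i < j → f i ≤ u i) ∧ (∀ n ∈ Fav Φ u j, n < k') ∧ Good Φ k' u j
  · obtain ⟨u, j, hu, hmj, hus, huf, hub, hug⟩ := h3
    obtain ⟨n, hn, hnX, y, hy, hD⟩ := fam352_good Φ k' u j hub hug X (hX' _) f
    refine ⟨y, ⟨hy.1, fun i hi => ?_, fun i hi => ?_⟩, n, le_trans (le_max_left _ _) hn, hnX, hD⟩
    · rw [hy.2.1 i (lt_of_lt_of_le hi hmj), hus i hi]
    · rcases Nat.lt_or_ge i j with h4 | h4
      · rw [hy.2.1 i h4]
        exact huf i hi h4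
      · exact hy.2.2 i h4
  exfalso
  obtain ⟨h, hfh, hBh⟩ := forward (fun u j => ∀ n ∈ Fav Φ u j, n < k')
    (fun s t m hst => by simp only [fav_congr hst]) s m f hs hbk (by
      intro u j hu hmj hus huf hub hcon
      apply h3
      refine ⟨u, j, hu, hmj, hus, huf, hub, ?_⟩
      obtain ⟨m', hm', h4⟩ := hcon
      refine ⟨m', hm', fun i => ?_⟩
      obtain ⟨t, ht1, ht2, ht3, ht4⟩ := h4 i
      push Not at ht4
      obtain ⟨n, hn1, hn2⟩ := ht4
      exact ⟨t, ht1, ht2, ht3, n, hn2, hn1⟩)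
  obtain ⟨y, hy⟩ := box_nonempty hs m h
  have hyf : y ∈ Box s m f := ⟨hy.1, hy.2.1, fun i hi => (hfh i).trans (hy.2.2 i hi)⟩
  obtain ⟨z, hz, n, hn, a, ha⟩ := hfail y hyf m (le_refl m) h hfh k'
  have hzs : z ∈ Box s m h := box_subset hy (le_refl m) (le_refl h) hz
  have hnF : n ∈ Fav Φ z (max m a) := by
    intro h'
    obtain ⟨w, hw⟩ := box_nonempty hz.1 (max m a) h'
    refine ⟨w, hw, a, ?_⟩
    have : pre w a = pre z a := pre_eq_iff.2 fun i hi =>
      hw.2.1 i (lt_of_lt_of_le hi (le_max_right _ _))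
    rw [this]
    exact ha
  have := hBh z hzs (max m a) (le_max_left _ _) n hnF
  omega


theorem baire (Q : ℕ → (ℕ → ℕ) → Prop)
    (hQ : ∀ j (s : ℕ → ℕ) (m : ℕ) (f : ℕ → ℕ), StrictMono s → ∃ s' ∈ Box s m f, ∃ m' ≥ m, ∃ f' ≥ f,
      ∀ z ∈ Box s' m' f', Q j z)
    (s : ℕ → ℕ) (m : ℕ) (f : ℕ → ℕ) (hs : StrictMono s) : ∃ y ∈ Box s m f, ∀ j, Q j y := by
  classical
  have hstep : ∀ (j : ℕ) (p : {p : (ℕ → ℕ) × ℕ × (ℕ → ℕ) // StrictMono p.1}),
      ∃ q : {p : (ℕ → ℕ) × ℕ × (ℕ → ℕ) // StrictMono p.1},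
        q.1.1 ∈ Box p.1.1 p.1.2.1 p.1.2.2 ∧ p.1.2.1 ≤ q.1.2.1 ∧ j + 1 ≤ q.1.2.1 ∧
          p.1.2.2 ≤ q.1.2.2 ∧ ∀ z ∈ Box q.1.1 q.1.2.1 q.1.2.2, Q j z := by
    rintro j ⟨⟨s, m, f⟩, hs⟩
    obtain ⟨s1, hs1, m1, hm1, f1, hf1, h1⟩ := hQ j s m f hs
    obtain ⟨s2, hs2⟩ := box_nonempty hs1.1 m1 f1
    refine ⟨⟨⟨s2, max m1 (j + 1), f1⟩, hs2.1⟩, ?_, ?_, ?_, ?_, ?_⟩
    · exact box_subset hs1 hm1 hf1 hs2
    · exact le_trans hm1 (le_max_left _ _)
    · exact le_max_right _ _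
    · exact hf1
    · intro z hz
      exact h1 z (box_subset hs2 (le_max_left _ _) le_rfl hz)
  choose nx hn1 hn2 hn3 hn4 hn5 using hstep
  let sq : ℕ → {p : (ℕ → ℕ) × ℕ × (ℕ → ℕ) // StrictMono p.1} :=
    fun n => Nat.rec ⟨(s, m, f), hs⟩ (fun j p => nx j p) n
  have sq0 : sq 0 = ⟨(s, m, f), hs⟩ := rfl
  have h1 : ∀ j, (sq (j + 1)).1.1 ∈ Box (sq j).1.1 (sq j).1.2.1 (sq j).1.2.2 :=
    fun j => hn1 j (sq j)
  have h2 : ∀ j, (sq j).1.2.1 ≤ (sq (j + 1)).1.2.1 := fun j => hn2 j (sq j)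
  have h3 : ∀ j, j + 1 ≤ (sq (j + 1)).1.2.1 := fun j => hn3 j (sq j)
  have h4 : ∀ j, (sq j).1.2.2 ≤ (sq (j + 1)).1.2.2 := fun j => hn4 j (sq j)
  have h5 : ∀ j, ∀ z ∈ Box (sq (j + 1)).1.1 (sq (j + 1)).1.2.1 (sq (j + 1)).1.2.2, Q j z :=
    fun j => hn5 j (sq j)
  clear_value sq
  have hmem : ∀ d j, (sq (j + d + 1)).1.1 ∈ Box (sq j).1.1 (sq j).1.2.1 (sq j).1.2.2 := by
    intro d
    induction d with
    | zero => intro j; exact h1 j
    | succ d ih =>
      intro j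
      have := ih (j + 1)
      have h := box_subset (h1 j) (h2 j) (h4 j) this
      have e : j + 1 + d + 1 = j + (d + 1) + 1 := by omega
      rwa [e] at h
  have hag : ∀ j l, j ≤ l → ∀ i < (sq j).1.2.1, (sq l).1.1 i = (sq j).1.1 i := by
    intro j l hjl i hi
    rcases Nat.eq_or_lt_of_le hjl with h | h
    · rw [h]
    · obtain ⟨d, rfl⟩ : ∃ d, l = j + d + 1 := ⟨l - j - 1, by omega⟩
      exact (hmem d j).2.1 i hi
  have hmj : ∀ j, j ≤ (sq j).1.2.1 := by
    intro j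
    cases j with
    | zero => exact Nat.zero_le _
    | succ j => exact h3 j
  have hy : ∀ j, (fun i => (sq (i + 1)).1.1 i) ∈
      Box (sq j).1.1 (sq j).1.2.1 (sq j).1.2.2 := by
    intro j
    refine ⟨?_, ?_, ?_⟩
    · intro a b hab
      show (sq (a + 1)).1.1 a < (sq (b + 1)).1.1 b
      rw [← hag (a + 1) (b + 1) (by omega) a
        (lt_of_lt_of_le (Nat.lt_succ_self a) (hmj (a + 1)))]
      exact (sq (b + 1)).2 hab
    · intro i hi
      show (sq (i + 1)).1.1 i = _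
      rcases le_total j (i + 1) with h | h
      · exact hag j (i + 1) h i hi
      · exact (hag (i + 1) j h i (lt_of_lt_of_le (Nat.lt_succ_self i) (hmj (i + 1)))).symm
    · intro i hi
      show _ ≤ (sq (i + 1)).1.1 i
      have : j ≤ i := (hmj j).trans hi
      obtain ⟨d, rfl⟩ : ∃ d, i = j + d := ⟨i - j, by omega⟩
      exact (hmem d j).2.2 (j + d) hi
  refine ⟨fun i => (sq (i + 1)).1.1 i, ?_, ?_⟩
  · have := hy 0
    rw [sq0] at this
    exact this
  · intro j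
    exact h5 j _ (hy (j + 1))

/-- `X` splits the set of all `n` such that `y` is in the `n`-th open set, or this set is finite. -/
def Splits (Φ : ℕ → Set (List ℕ)) (X : Set ℕ) (y : ℕ → ℕ) : Prop :=
  {n | Dn Φ n y}.Finite ∨ (({n | Dn Φ n y} ∩ X).Infinite ∧ ({n | Dn Φ n y} \ X).Infinite)

/-- A chosen countable family for `Φ`. -/
noncomputable def fam (Φ : ℕ → Set (List ℕ)) : ℕ → Set ℕ := Classical.choose (exists_family Φ)

theorem one_step_aux (Φ : ℕ → Set (List ℕ)) (X : Set ℕ)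
    (hX : ∀ j, (fam Φ j ∩ X).Infinite) (k : ℕ) (s : ℕ → ℕ) (m : ℕ) (f : ℕ → ℕ) (hs : StrictMono s) :
    ∃ s' ∈ Box s m f, ∃ m' ≥ m, ∃ f' ≥ f, ∀ z ∈ Box s' m' f',
      ((∃ k', ∀ n ≥ k', ¬ Dn Φ n z) ∨ ∃ n ≥ k, (n ∈ X ∧ Dn Φ n z)) := by
  rcases (Classical.choose_spec (exists_family Φ)).2 X hX s m f k hs with h | h
  · obtain ⟨y, hy, m', hm', f', hf', k', h⟩ := h
    exact ⟨y, hy, m', hm', f', hf', fun z hz => Or.inl ⟨k', h z hz⟩⟩
  · obtain ⟨y, hy, n, hn, hnX, a, ha⟩ := h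
    refine ⟨y, hy, max m a, le_max_left _ _, f, le_refl _, fun z hz => Or.inr ⟨n, hn, hnX, a, ?_⟩⟩
    have : pre z a = pre y a := pre_eq_iff.2 fun i hi => hz.2.1 i (lt_of_lt_of_le hi (le_max_right _ _))
    rw [this]
    exact ha


theorem one_step (ι : Type) [Countable ι] (Φ : ι → ℕ → Set (List ℕ)) (X : ι → Set ℕ)
    (hX : ∀ i j, (fam (Φ i) j ∩ X i).Infinite ∧ (fam (Φ i) j ∩ (X i)ᶜ).Infinite) (g : ℕ → ℕ) :
    ∃ y : ℕ → ℕ, (∀ n, g n ≤ y n) ∧ ∀ i, Splits (Φ i) (X i) y := by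
  classical
  rcases isEmpty_or_nonempty ι with hι | hι
  · obtain ⟨y, hy⟩ := box_nonempty (s := id) strictMono_id 0 g
    exact ⟨y, fun n => hy.2.2 n (Nat.zero_le _), fun i => (hι.false i).elim⟩
  obtain ⟨e, he⟩ := exists_surjective_nat (ι × ℕ × Bool)
  obtain ⟨y, hy, hQ⟩ := baire
    (fun j z => ((∃ k', ∀ n ≥ k', ¬ Dn (Φ (e j).1) n z) ∨
      ∃ n ≥ (e j).2.1, (n ∈ (if (e j).2.2 = true then X (e j).1 else (X (e j).1)ᶜ) ∧
        Dn (Φ (e j).1) n z)))
    (fun j s m f hs => one_step_aux (Φ (e j).1)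
      (if (e j).2.2 = true then X (e j).1 else (X (e j).1)ᶜ)
      (fun j' => by
        by_cases hb : (e j).2.2 = true
        · rw [if_pos hb]; exact (hX (e j).1 j').1
        · rw [if_neg hb]; exact (hX (e j).1 j').2) (e j).2.1 s m f hs)
    id 0 g strictMono_id
  refine ⟨y, fun n => hy.2.2 n (Nat.zero_le _), fun i => ?_⟩
  by_cases hfin : {n | Dn (Φ i) n y}.Finite
  · exact Or.inl hfin
  right
  have hno : ¬ ∃ k', ∀ n ≥ k', ¬ Dn (Φ i) n y := by
    rintro ⟨k', hk'⟩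
    apply hfin
    refine (Set.finite_lt_nat k').subset ?_
    intro n hn
    by_contra hlt
    exact hk' n (not_lt.1 hlt) hn
  constructor
  · refine Set.infinite_of_forall_exists_gt fun k => ?_
    obtain ⟨j, hj⟩ := he (i, k + 1, true)
    have h := hQ j
    rw [hj] at h
    rcases h with h | ⟨n, hn, hnX, hD⟩
    · exact absurd h hno
    · exact ⟨n, ⟨hD, by simpa using hnX⟩, hn⟩
  · refine Set.infinite_of_forall_exists_gt fun k => ?_
    obtain ⟨j, hj⟩ := he (i, k + 1, false)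
    have h := hQ j
    rw [hj] at h
    rcases h with h | ⟨n, hn, hnX, hD⟩
    · exact absurd h hno
    · exact ⟨n, ⟨hD, by simpa using hnX⟩, hn⟩

theorem exists_strong_seq {α : Type*} [Nonempty α] (P : ℕ → (ℕ → α) → α → Prop)
    (h : ∀ n f, ∃ x, P n f x) (hloc : ∀ n f f' x, (∀ m < n, f m = f' m) → P n f x → P n f' x) :
    ∃ f : ℕ → α, ∀ n, P n f (f n) := by
  classical
  have hinh : Inhabited α := Classical.inhabited_of_nonempty ‹_›
  let F : ∀ n : ℕ, (∀ m, m < n → α) → α := fun n ih =>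
    Classical.choose (h n (fun m => if hm : m < n then ih m hm else default))
  let f : ℕ → α := fun n => Nat.lt_wfRel.wf.fix F n
  have hf : ∀ n, f n = F n (fun m _ => f m) := fun n => Nat.lt_wfRel.wf.fix_eq F n
  refine ⟨f, fun n => ?_⟩
  have h1 := Classical.choose_spec (h n (fun m => if hm : m < n then f m else default))
  have h2 : f n = Classical.choose (h n (fun m => if hm : m < n then f m else default)) := hf n
  rw [← h2] at h1
  refine hloc n _ _ _ ?_ h1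
  intro m hm
  simp [hm]


/-- Countably many infinite sets of naturals can be split simultaneously. -/
theorem exists_split_countable {ι : Type*} [Countable ι] (A : ι → Set ℕ)
    (hA : ∀ i, (A i).Infinite) :
    ∃ B : Set ℕ, ∀ i, (A i ∩ B).Infinite ∧ (A i \ B).Infinite := by
  classical
  rcases isEmpty_or_nonempty ι with hι | hι
  · exact ⟨∅, fun i => (hι.false i).elim⟩
  obtain ⟨e, he⟩ := exists_surjective_nat ι
  have hnx : ∀ (i : ι) (N : ℕ), ∃ n ∈ A i, N < n := fun i N =>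
    (Set.infinite_iff_exists_gt.1 (hA i)) N
  choose nx hnx1 hnx2 using hnx
  let idx : ℕ → ι := fun m => e (Nat.unpair (m / 2)).1
  let n : ℕ → ℕ := fun m => Nat.rec (nx (idx 0) 0) (fun m r => nx (idx (m + 1)) r) m
  have hn : ∀ m, n m ∈ A (idx m) := by
    intro m
    cases m with
    | zero => exact hnx1 _ _
    | succ m => exact hnx1 _ _
  have hmono : StrictMono n := strictMono_nat_of_lt_succ (fun m => hnx2 _ _)
  refine ⟨Set.range (fun k => n (2 * k)), fun i => ?_⟩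
  obtain ⟨t, rfl⟩ := he i
  constructor
  · have h1 : (Set.range (fun s => n (2 * Nat.pair t s))).Infinite := by
      apply Set.infinite_range_of_injective
      intro s s' hss
      have := hmono.injective hss
      have h2 : Nat.pair t s = Nat.pair t s' := by omega
      exact (Nat.pair_eq_pair.1 h2).2
    refine h1.mono ?_
    rintro _ ⟨s, rfl⟩
    refine ⟨?_, ⟨Nat.pair t s, rfl⟩⟩
    have := hn (2 * Nat.pair t s)
    simpa [idx] using this
  · have h1 : (Set.range (fun s => n (2 * Nat.pair t s + 1))).Infinite := by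
      apply Set.infinite_range_of_injective
      intro s s' hss
      have h5 : 2 * Nat.pair t s + 1 = 2 * Nat.pair t s' + 1 := hmono.injective hss
      have h2 : Nat.pair t s = Nat.pair t s' := by omega
      exact (Nat.pair_eq_pair.1 h2).2
    refine h1.mono ?_
    rintro _ ⟨s, rfl⟩
    refine ⟨?_, ?_⟩
    · have := hn (2 * Nat.pair t s + 1)
      have h3 : (2 * Nat.pair t s + 1) / 2 = Nat.pair t s := by omega
      simpa [idx, h3] using this
    · rintro ⟨k, hk⟩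
      have h5 : 2 * k = 2 * Nat.pair t s + 1 := hmono.injective hk
      omega

theorem exists_wf_rec {W α : Type} [LinearOrder W] [WellFoundedLT W] [Nonempty α]
    (P : W → (W → α) → α → Prop)
    (h : ∀ n f, ∃ x, P n f x) (hloc : ∀ n f f' x, (∀ m < n, f m = f' m) → P n f x → P n f' x) :
    ∃ f : W → α, ∀ n, P n f (f n) := by
  classical
  have hinh : Inhabited α := Classical.inhabited_of_nonempty ‹_›
  let F : ∀ n : W, (∀ m, m < n → α) → α := fun n ih =>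
    Classical.choose (h n (fun m => if hm : m < n then ih m hm else default))
  let f : W → α := fun n => (wellFounded_lt (α := W)).fix F n
  have hf : ∀ n, f n = F n (fun m _ => f m) := fun n => (wellFounded_lt (α := W)).fix_eq F n
  refine ⟨f, fun n => ?_⟩
  have h1 := Classical.choose_spec (h n (fun m => if hm : m < n then f m else default))
  have h2 : f n = Classical.choose (h n (fun m => if hm : m < n then f m else default)) := hf n
  rw [← h2] at h1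
  refine hloc n _ _ _ ?_ h1
  intro m hm
  simp [hm]

/-- the set of indices, or everything if it is finite -/
noncomputable def SS (Φ : ℕ → Set (List ℕ)) (z : ℕ → ℕ) : Set ℕ :=
  open Classical in if {n | Dn Φ n z}.Infinite then {n | Dn Φ n z} else Set.univ

theorem SS_infinite (Φ : ℕ → Set (List ℕ)) (z : ℕ → ℕ) : (SS Φ z).Infinite := by
  unfold SS
  split_ifs with h
  · exact h
  · exact Set.infinite_univ

theorem splits_of_SS {Φ : ℕ → Set (List ℕ)} {z : ℕ → ℕ} {X : Set ℕ}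
    (h : (SS Φ z ∩ X).Infinite ∧ (SS Φ z \ X).Infinite) : Splits Φ X z := by
  by_cases hf : {n | Dn Φ n z}.Infinite
  · right
    have h1 : SS Φ z = {n | Dn Φ n z} := by
      unfold SS
      rw [if_pos hf]
    rwa [h1] at h
  · left
    exact Set.not_infinite.mp hf

theorem fam_infinite (Φ : ℕ → Set (List ℕ)) (j : ℕ) : (fam Φ j).Infinite :=
  (Classical.choose_spec (exists_family Φ)).1 j

/-- the condition in the recursion -/
def PP {W : Type} [LinearOrder W] (G : W → (ℕ → ℕ)) (Ψ : W → (ℕ → Set (List ℕ)))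
    (a : W) (f : W → (ℕ → ℕ) × Set ℕ) (x : (ℕ → ℕ) × Set ℕ) : Prop :=
  (∀ n, G a n ≤ x.1 n) ∧
  (∀ b < a, (∀ j, (fam (Ψ b) j ∩ (f b).2).Infinite ∧ (fam (Ψ b) j ∩ ((f b).2)ᶜ).Infinite) →
    Splits (Ψ b) (f b).2 x.1) ∧
  (∀ j, (fam (Ψ a) j ∩ x.2).Infinite ∧ (fam (Ψ a) j ∩ (x.2)ᶜ).Infinite) ∧
  (∀ b < a, Splits (Ψ a) x.2 (f b).1) ∧ Splits (Ψ a) x.2 x.1

theorem PP_exists {W : Type} [LinearOrder W] (hW : ∀ a : W, (Set.Iio a).Countable)
    (G : W → (ℕ → ℕ)) (Ψ : W → (ℕ → Set (List ℕ))) (a : W) (f : W → (ℕ → ℕ) × Set ℕ) :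
    ∃ x, PP G Ψ a f x := by
  haveI : Countable (Set.Iio a) := (hW a).to_subtype
  obtain ⟨y, hy1, hy2⟩ := one_step {b : Set.Iio a // ∀ j, (fam (Ψ b.1) j ∩ (f b.1).2).Infinite ∧
    (fam (Ψ b.1) j ∩ ((f b.1).2)ᶜ).Infinite} (fun b => Ψ b.1.1) (fun b => (f b.1.1).2)
    (fun b j => b.2 j) (G a)
  let A : ℕ ⊕ Option (Set.Iio a) → Set ℕ := fun i =>
    match i with
    | Sum.inl j => fam (Ψ a) j
    | Sum.inr none => SS (Ψ a) y
    | Sum.inr (some b) => SS (Ψ a) (f b.1).1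
  obtain ⟨B, hB⟩ := exists_split_countable A (by
    intro i
    match i with
    | Sum.inl j => exact fam_infinite _ j
    | Sum.inr none => exact SS_infinite _ _
    | Sum.inr (some b) => exact SS_infinite _ _)
  refine ⟨(y, B), hy1, ?_, ?_, ?_, ?_⟩
  · intro b hb hh
    exact hy2 ⟨⟨b, hb⟩, hh⟩
  · intro j
    exact hB (Sum.inl j)
  · intro b hb
    exact splits_of_SS (hB (Sum.inr (some ⟨b, hb⟩)))
  · exact splits_of_SS (hB (Sum.inr none))

theorem PP_loc {W : Type} [LinearOrder W]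
    (G : W → (ℕ → ℕ)) (Ψ : W → (ℕ → Set (List ℕ))) (a : W) (f f' : W → (ℕ → ℕ) × Set ℕ)
    (x : (ℕ → ℕ) × Set ℕ) (hff : ∀ b < a, f b = f' b) (h : PP G Ψ a f x) : PP G Ψ a f' x := by
  obtain ⟨h1, h2, h3, h4, h5⟩ := h
  refine ⟨h1, ?_, h3, ?_, h5⟩
  · intro b hb
    rw [← hff b hb]
    exact h2 b hb
  · intro b hb
    rw [← hff b hb]
    exact h4 b hb


theorem exists_space (hCH : Cardinal.aleph 1 = Cardinal.continuum.{0}) :
    ∃ Y : Set (ℕ → ℕ), (∀ g : ℕ → ℕ, ∃ y ∈ Y, ∀ n, g n ≤ y n) ∧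
      ∀ Φ : ℕ → Set (List ℕ), ∃ X : Set ℕ, ∀ y ∈ Y, Splits Φ X y := by
  let W : Type := (Cardinal.aleph 1 : Cardinal.{0}).ord.ToType
  have hWc : Cardinal.mk W = Cardinal.aleph 1 := Cardinal.mk_ord_toType _
  have hW : ∀ a : W, (Set.Iio a).Countable := by
    intro a
    rw [Cardinal.countable_iff_lt_aleph_one]
    exact Cardinal.mk_Iio_toType_ord_lt a
  have h1 : Cardinal.mk (ℕ → ℕ) = Cardinal.mk W := by
    rw [hWc, hCH]
    simp
  have h2 : Cardinal.mk (ℕ → Set (List ℕ)) = Cardinal.mk W := by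
    rw [hWc, hCH]
    simp
  obtain ⟨e1⟩ := Cardinal.eq.mp h1
  obtain ⟨e2⟩ := Cardinal.eq.mp h2
  obtain ⟨f, hf⟩ := exists_wf_rec (W := W) (PP (fun a => e1.symm a) (fun a => e2.symm a))
    (fun a f => PP_exists hW _ _ a f) (fun a f f' x => PP_loc _ _ a f f' x)
  refine ⟨Set.range (fun a => (f a).1), ?_, ?_⟩
  · intro g
    refine ⟨(f (e1 g)).1, ⟨e1 g, rfl⟩, fun n => ?_⟩
    have h3 := (hf (e1 g)).1 n
    simpa using h3
  · intro Φ
    refine ⟨(f (e2 Φ)).2, ?_⟩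
    rintro _ ⟨b, rfl⟩
    have h3 : e2.symm (e2 Φ) = Φ := e2.symm_apply_apply Φ
    show Splits Φ (f (e2 Φ)).2 (f b).1
    rcases lt_trichotomy b (e2 Φ) with h | h | h
    · have h4 := (hf (e2 Φ)).2.2.2.1 b h
      simp only [h3] at h4
      exact h4
    · have h4 := (hf (e2 Φ)).2.2.2.2
      simp only [h3] at h4
      rw [h]
      exact h4
    · have h4 := (hf b).2.1 (e2 Φ) h (hf (e2 Φ)).2.2.1
      simp only [h3] at h4
      exact h4

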